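import Pool.Agent.MP_9adac4_al.Q1

namespace Pool.Agent.Results.MP_9adac4_al.Q1

open Pool.Agent.MP_9adac4_al

/-- A simple Lie algebra of dimension `> 3` over a perfect field of characteristic 2 with a thin
decomposition has a proper simple graded subalgebra. -/
theorem result (K L : Type*) [Field K] [CharP K 2] [PerfectField K] [LieRing L] [LieAlgebra K L]
    [FiniteDimensional K L] [LieAlgebra.IsSimple K L] (hdim : 3 < Module.finrank K L)
    (n : ℕ) (t : Fin n → Module.End K L) (ht : IsThin t) :
    ∃ M : LieSubalgebra K L, IsGraded t M ∧ M ≠ ⊤ ∧ LieAlgebra.IsSimple K M :=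
  q1 hdim t ht

end Pool.Agent.Results.MP_9adac4_al.Q1
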