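import Pool.Agent.MP_9adac4_al.Q2

namespace Pool.Agent.Results.MP_9adac4_al.Q2

open Pool.Agent.MP_9adac4_al

universe u

/-- Over every perfect field of characteristic 2 there is a simple Lie algebra of dimension 15
with a thin decomposition having no simple graded subalgebra of dimension 7. -/
theorem result (K : Type u) [Field K] [CharP K 2] [PerfectField K] :
    ∃ (L : Type u) (_ : LieRing L) (_ : LieAlgebra K L), FiniteDimensional K L ∧
      LieAlgebra.IsSimple K L ∧ Module.finrank K L = 15 ∧
      ∃ t : Fin 4 → Module.End K L, IsThin t ∧
        ∀ M : LieSubalgebra K L, IsGraded t M → Module.finrank K M = 7 →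
          ¬ LieAlgebra.IsSimple K M :=
  ⟨LL K, inferInstance, inferInstance, inferInstance, inferInstance, finrank_LL K, tt K,
    thin_tt K, no_seven K⟩

end Pool.Agent.Results.MP_9adac4_al.Q2
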